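import Pool.Agent.W96.CL.Stm
set_option autoImplicit false

open Polynomial Filter Topology MeasureTheory

namespace W96CL

namespace RFacAux

/-- `0 < re`, `|arg| < π/3` -/
def good (w : ℂ) : Prop := 0 < w.re ∧ w.im ^ 2 < 3 * w.re ^ 2

theorem good_exp {z : ℂ} (hz : |z.im| < 2 * Real.pi / 3) : good (Complex.exp (z / 2)) := by
  have hpi := Real.pi_pos
  have him : (z / 2).im = z.im / 2 := by
    rw [show z / 2 = ((1 / 2 : ℝ) : ℂ) * z by push_cast; ring, Complex.im_ofReal_mul]; ring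
  have h1 : 1 / 2 < Real.cos (z.im / 2) := by
    rw [← Real.cos_pi_div_three, ← Real.cos_abs (z.im / 2)]
    apply Real.cos_lt_cos_of_nonneg_of_le_pi (abs_nonneg _) (by linarith)
    rw [abs_div, abs_two]
    linarith
  have h2 := Real.sin_sq_add_cos_sq (z.im / 2)
  have h3 := Real.exp_pos (z / 2).re
  constructor
  · rw [Complex.exp_re, him]
    positivity
  · rw [Complex.exp_re, Complex.exp_im, him]
    have h4 : Real.sin (z.im / 2) ^ 2 < 3 * Real.cos (z.im / 2) ^ 2 := by nlinarith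
    have h5 : 0 < Real.exp (z / 2).re ^ 2 := by positivity
    nlinarith

theorem good_ne1 {w : ℂ} (h : good w) : w + 1 ≠ 0 := by
  intro h0
  have := congrArg Complex.re h0
  simp at this
  linarith [h.1]

theorem good_ne2 {w : ℂ} (h : good w) : w ^ 2 - w + 1 ≠ 0 := by
  intro h0
  obtain ⟨h1, h2⟩ := h
  have hr := congrArg Complex.re h0
  have hi := congrArg Complex.im h0
  simp [pow_two] at hr hi
  have h3 : w.im * (2 * w.re - 1) = 0 := by linarith
  rcases mul_eq_zero.1 h3 with h4 | h4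
  · rw [h4] at hr
    nlinarith [sq_nonneg (w.re - 1 / 2)]
  · have h5 : w.re = 1 / 2 := by linarith
    rw [h5] at hr h2
    nlinarith

theorem good_ne3 {w : ℂ} (h : good w) : w ^ 2 + w + 1 ≠ 0 := by
  intro h0
  obtain ⟨h1, h2⟩ := h
  have hr := congrArg Complex.re h0
  have hi := congrArg Complex.im h0
  simp [pow_two] at hr hi
  have h3 : w.im * (2 * w.re + 1) = 0 := by linarith
  rcases mul_eq_zero.1 h3 with h4 | h4
  · rw [h4] at hr
    nlinarith
  · linarith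

/-- the factor `(e^z - 1)/tanh(3z/4)` -/
noncomputable def G1 (z : ℂ) : ℂ :=
  ((Complex.exp (z / 2) + 1) ^ 2 * (Complex.exp (z / 2) ^ 2 - Complex.exp (z / 2) + 1)) /
    (Complex.exp (z / 2) ^ 2 + Complex.exp (z / 2) + 1)

theorem G1_ne {z : ℂ} (hz : |z.im| < 2 * Real.pi / 3) : G1 z ≠ 0 := by
  have h := good_exp hz
  exact div_ne_zero (mul_ne_zero (pow_ne_zero _ (good_ne1 h)) (good_ne2 h)) (good_ne3 h)

theorem G1_diff {z : ℂ} (hz : |z.im| < 2 * Real.pi / 3) : DifferentiableAt ℂ G1 z := by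
  have h := good_exp hz
  unfold G1
  exact DifferentiableAt.div (by fun_prop) (by fun_prop) (good_ne3 h)

theorem tanh_formula (z : ℂ) (h : Complex.exp (2 * z) + 1 ≠ 0) :
    Complex.tanh z = (Complex.exp (2 * z) - 1) / (Complex.exp (2 * z) + 1) := by
  have h2 : Complex.exp (2 * z) = Complex.exp z ^ 2 := by
    rw [← Complex.exp_nat_mul]; norm_num
  rw [Complex.tanh_eq_sinh_div_cosh, Complex.sinh, Complex.cosh, Complex.exp_neg, h2]
  rw [h2] at h
  have h0 := Complex.exp_ne_zero z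
  have h3 : Complex.exp z + (Complex.exp z)⁻¹ ≠ 0 := by
    intro h4
    apply h
    field_simp at h4
    simpa using h4
  field_simp

theorem G1_eq {z : ℂ} (hz : |z.im| < 2 * Real.pi / 3) :
    Complex.exp z - 1 = Complex.tanh (3 * z / 4) * G1 z := by
  have h := good_exp hz
  have e1 : Complex.exp z = Complex.exp (z / 2) ^ 2 := by
    rw [← Complex.exp_nat_mul]; congr 1; push_cast; ring
  have e2 : Complex.exp (2 * (3 * z / 4)) = Complex.exp (z / 2) ^ 3 := by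
    rw [← Complex.exp_nat_mul]; congr 1; push_cast; ring
  have h1 := good_ne1 h
  have h2 := good_ne2 h
  have h3 := good_ne3 h
  have h4 : Complex.exp (z / 2) ^ 3 + 1 ≠ 0 := by
    have : Complex.exp (z / 2) ^ 3 + 1 =
      (Complex.exp (z / 2) + 1) * (Complex.exp (z / 2) ^ 2 - Complex.exp (z / 2) + 1) := by ring
    rw [this]
    exact mul_ne_zero h1 h2
  rw [tanh_formula _ (by rw [e2]; exact h4), e2, e1]
  unfold G1
  rw [div_mul_div_comm, eq_div_iff (mul_ne_zero h4 h3)]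
  ring

theorem G1_conj (z : ℂ) : G1 (starRingEnd ℂ z) = starRingEnd ℂ (G1 z) := by
  unfold G1
  have h : Complex.exp (starRingEnd ℂ z / 2) = starRingEnd ℂ (Complex.exp (z / 2)) := by
    rw [← Complex.exp_conj]
    congr 1
    rw [map_div₀, map_ofNat]
  rw [h]
  simp

theorem RR_eq (θ : ℝ) (z : ℂ) : RR θ z =
    Complex.tanh (3 * (z - θ * Complex.I) / 4) * Complex.tanh (3 * (z + θ * Complex.I) / 4) := by
  unfold RR
  have e1 : 3 * z / 2 = 3 * (z - θ * Complex.I) / 4 + 3 * (z + θ * Complex.I) / 4 := by ring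
  have e2 : ((Real.cos (3 * θ / 2) : ℝ) : ℂ) =
      Complex.cosh (3 * (z - θ * Complex.I) / 4 - 3 * (z + θ * Complex.I) / 4) := by
    rw [show 3 * (z - θ * Complex.I) / 4 - 3 * (z + θ * Complex.I) / 4 =
      -(((3 * θ / 2 : ℝ) : ℂ) * Complex.I) by push_cast; ring, Complex.cosh_neg,
      Complex.cosh_mul_I, Complex.ofReal_cos]
  rw [e2, e1, Complex.cosh_add, Complex.cosh_sub, Complex.tanh_eq_sinh_div_cosh,
    Complex.tanh_eq_sinh_div_cosh, div_mul_div_comm]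
  generalize Complex.cosh (3 * (z - θ * Complex.I) / 4) = a
  generalize Complex.cosh (3 * (z + θ * Complex.I) / 4) = b
  generalize Complex.sinh (3 * (z - θ * Complex.I) / 4) = c
  generalize Complex.sinh (3 * (z + θ * Complex.I) / 4) = d
  rw [show a * b + c * d - (a * b - c * d) = 2 * (c * d) by ring,
    show a * b + c * d + (a * b - c * d) = 2 * (a * b) by ring,
    mul_div_mul_left _ _ (two_ne_zero)]

theorem quad_eq (θ : ℝ) (y : ℂ) : 1 + 2 * Real.cos θ * (-y) + (-y) ^ 2 =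
    (y - Complex.exp (θ * Complex.I)) * (y - Complex.exp (-(θ * Complex.I))) := by
  have h1 : Complex.exp (θ * Complex.I) * Complex.exp (-(θ * Complex.I)) = 1 := by
    rw [← Complex.exp_add]; simp
  have h2 : Complex.exp (θ * Complex.I) + Complex.exp (-(θ * Complex.I)) = 2 * Real.cos θ := by
    rw [Complex.ofReal_cos, Complex.cos]
    ring
  linear_combination (-1) * h1 + y * h2

theorem om_exp : om = Complex.exp ((2 * Real.pi / 3 : ℝ) * Complex.I) := by
  have h : Complex.exp ((2 * Real.pi / 3 : ℝ) * Complex.I) =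
      (Real.cos (2 * Real.pi / 3) : ℂ) + (Real.sin (2 * Real.pi / 3) : ℂ) * Complex.I := by
    rw [Complex.exp_mul_I, Complex.ofReal_cos, Complex.ofReal_sin]
  have hc : Real.cos (2 * Real.pi / 3) = -1 / 2 := by
    rw [show 2 * Real.pi / 3 = Real.pi - Real.pi / 3 by ring, Real.cos_pi_sub,
      Real.cos_pi_div_three]; ring
  have hs : Real.sin (2 * Real.pi / 3) = Real.sqrt 3 / 2 := by
    rw [show 2 * Real.pi / 3 = Real.pi - Real.pi / 3 by ring, Real.sin_pi_sub,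
      Real.sin_pi_div_three]
  rw [h, hc, hs]
  apply Complex.ext <;> simp [om]

theorem om_conj : starRingEnd ℂ om = om ^ 2 := by
  apply Complex.ext
  · simp [om, pow_two]
    nlinarith [Real.sq_sqrt (show (0 : ℝ) ≤ 3 by norm_num)]
  · simp [om, pow_two]
    ring_nf

theorem psi_conj (n : ℕ) (θ : ℝ) (x : ℂ) :
    psi n θ (starRingEnd ℂ x) = starRingEnd ℂ (psi n θ x) := by
  unfold psi
  simp only [map_pow, map_add, map_mul, map_one, map_ofNat, Complex.conj_ofReal]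

theorem psi_ne1 {n : ℕ} {θ : ℝ} (h0 : 0 < θ) {z : ℂ} (hz : |z.im| < 2 * Real.pi / 3 - θ) :
    psi n θ (-(om * Complex.exp z)) ≠ 0 := by
  have hpi := Real.pi_pos
  unfold psi
  apply pow_ne_zero
  rw [quad_eq, om_exp, ← Complex.exp_add]
  have hz' := abs_lt.1 hz
  apply mul_ne_zero
  · intro h
    rw [sub_eq_zero, Complex.exp_eq_exp_iff_exists_int] at h
    obtain ⟨k, hk⟩ := h
    have him := congrArg Complex.im hk
    simp at him
    have him' : z.im = θ - 2 * Real.pi / 3 + k * (2 * Real.pi) := by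
      have : (2 * (Real.pi : ℂ) / 3).re = 2 * Real.pi / 3 := by
        rw [show (2 * (Real.pi : ℂ) / 3) = ((2 * Real.pi / 3 : ℝ) : ℂ) by push_cast; ring]
        simp
      linarith
    rcases le_or_gt k 0 with hk0 | hk0
    · have : (k : ℝ) ≤ 0 := by exact_mod_cast hk0
      nlinarith
    · have : (1 : ℝ) ≤ k := by exact_mod_cast hk0
      nlinarith
  · intro h
    rw [sub_eq_zero, Complex.exp_eq_exp_iff_exists_int] at h
    obtain ⟨k, hk⟩ := h
    have him := congrArg Complex.im hk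
    simp at him
    have him' : z.im = -θ - 2 * Real.pi / 3 + k * (2 * Real.pi) := by
      have : (2 * (Real.pi : ℂ) / 3).re = 2 * Real.pi / 3 := by
        rw [show (2 * (Real.pi : ℂ) / 3) = ((2 * Real.pi / 3 : ℝ) : ℂ) by push_cast; ring]
        simp
      linarith
    rcases le_or_gt k 0 with hk0 | hk0
    · have : (k : ℝ) ≤ 0 := by exact_mod_cast hk0
      nlinarith
    · have : (1 : ℝ) ≤ k := by exact_mod_cast hk0
      nlinarith

theorem psi_ne2 {n : ℕ} {θ : ℝ} (h0 : 0 < θ) {z : ℂ} (hz : |z.im| < 2 * Real.pi / 3 - θ) :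
    psi n θ (-(om ^ 2 * Complex.exp z)) ≠ 0 := by
  have h1 : psi n θ (-(om ^ 2 * Complex.exp z)) =
      starRingEnd ℂ (psi n θ (-(om * Complex.exp (starRingEnd ℂ z)))) := by
    rw [← psi_conj]
    congr 1
    rw [map_neg, map_mul, om_conj, ← Complex.exp_conj, Complex.conj_conj]
  rw [h1, Ne, map_eq_zero]
  apply psi_ne1 h0
  simpa using hz

/-- the function `ρ` -/
noncomputable def rho (n : ℕ) (θ : ℝ) (Q1 : ℝ[X]) (z : ℂ) : ℂ :=
  -((Real.sqrt 3 : ℂ) * aeval (-Complex.exp z) Q1 * G1 z *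
    (G1 (z - θ * Complex.I) * G1 (z + θ * Complex.I)) ^ n) /
    (psi n θ (-(om * Complex.exp z)) * psi n θ (-(om ^ 2 * Complex.exp z)))

theorem im_sub (z : ℂ) (θ : ℝ) : (z - θ * Complex.I).im = z.im - θ := by simp
theorem im_add (z : ℂ) (θ : ℝ) : (z + θ * Complex.I).im = z.im + θ := by simp

theorem abs_sub_lt {z : ℂ} {θ : ℝ} (h0 : 0 < θ) (hz : |z.im| < 2 * Real.pi / 3 - θ) :
    |z.im| < 2 * Real.pi / 3 ∧ |(z - θ * Complex.I).im| < 2 * Real.pi / 3 ∧
      |(z + θ * Complex.I).im| < 2 * Real.pi / 3 := by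
  have h := abs_lt.1 hz
  rw [im_sub, im_add]
  refine ⟨by linarith, ?_, ?_⟩ <;> rw [abs_lt] <;> constructor <;> linarith

theorem rho_main {n : ℕ} {θ : ℝ} {Q Q1 : ℝ[X]} (hQ : Q = (X + 1) * Q1) (h0 : 0 < θ) {z : ℂ}
    (hz : |z.im| < 2 * Real.pi / 3 - θ) :
    rC n θ Q z = Complex.tanh (3 * z / 4) * RR θ z ^ n * rho n θ Q1 z := by
  obtain ⟨h1, h2, h3⟩ := abs_sub_lt h0 hz
  have e1 := G1_eq h1
  have e2 := G1_eq h2
  have e3 := G1_eq h3
  have e4 : psi n θ (-Complex.exp z) = ((Complex.tanh (3 * (z - θ * Complex.I) / 4) *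
      G1 (z - θ * Complex.I)) * (Complex.tanh (3 * (z + θ * Complex.I) / 4) *
      G1 (z + θ * Complex.I))) ^ n := by
    rw [← e2, ← e3]
    unfold psi
    rw [quad_eq]
    congr 1
    rw [Complex.exp_sub, Complex.exp_add]
    have h5 : Complex.exp (-(θ * Complex.I)) = (Complex.exp (θ * Complex.I))⁻¹ := Complex.exp_neg _
    have h6 := Complex.exp_ne_zero (θ * Complex.I)
    rw [h5]
    field_simp
  have e5 : aeval (-Complex.exp z) Q = -(Complex.tanh (3 * z / 4) * G1 z) *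
      aeval (-Complex.exp z) Q1 := by
    rw [← e1, hQ, map_mul, map_add, aeval_X, map_one]
    ring
  unfold rC rho
  rw [e4, e5, RR_eq]
  ring

theorem exp_ne_neg {z : ℂ} (hz : |z.im| < Real.pi) (a : ℝ) (ha : 0 < a) :
    -Complex.exp z ≠ (a : ℂ) := by
  intro h
  have h1 : Complex.exp z = Complex.exp ((Real.log a : ℝ) + Real.pi * Complex.I) := by
    rw [Complex.exp_add, Complex.exp_pi_mul_I, ← Complex.ofReal_exp, Real.exp_log ha, ← h]
    ring
  rw [Complex.exp_eq_exp_iff_exists_int] at h1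
  obtain ⟨k, hk⟩ := h1
  have him := congrArg Complex.im hk
  simp at him
  have hz' := abs_lt.1 hz
  have hpi := Real.pi_pos
  rcases le_or_gt k (-1) with hk0 | hk0
  · have : (k : ℝ) ≤ -1 := by exact_mod_cast hk0
    nlinarith
  · have : (0 : ℝ) ≤ k := by exact_mod_cast (by omega : 0 ≤ k)
    nlinarith

theorem rho_ne {n : ℕ} {θ : ℝ} {Q1 : ℝ[X]}
    (hQ1 : ∀ z : ℂ, aeval z Q1 = 0 → ∃ a : ℝ, 0 < a ∧ z = a) (h0 : 0 < θ) {z : ℂ}
    (hz : |z.im| < 2 * Real.pi / 3 - θ) : rho n θ Q1 z ≠ 0 := by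
  obtain ⟨h1, h2, h3⟩ := abs_sub_lt h0 hz
  unfold rho
  apply div_ne_zero
  · rw [neg_ne_zero]
    refine mul_ne_zero (mul_ne_zero (mul_ne_zero ?_ ?_) (G1_ne h1))
      (pow_ne_zero _ (mul_ne_zero (G1_ne h2) (G1_ne h3)))
    · norm_num
    · intro h
      obtain ⟨a, ha, hza⟩ := hQ1 _ h
      exact exp_ne_neg (by linarith [Real.pi_pos]) a ha hza
  · exact mul_ne_zero (psi_ne1 h0 hz) (psi_ne2 h0 hz)

theorem rho_diff {n : ℕ} {θ : ℝ} {Q1 : ℝ[X]} (h0 : 0 < θ) {z : ℂ}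
    (hz : |z.im| < 2 * Real.pi / 3 - θ) : DifferentiableAt ℂ (rho n θ Q1) z := by
  obtain ⟨h1, h2, h3⟩ := abs_sub_lt h0 hz
  have d1 := G1_diff h1
  have d2 : DifferentiableAt ℂ (fun z => G1 (z - θ * Complex.I)) z :=
    DifferentiableAt.comp (f := fun z : ℂ => z - θ * Complex.I) (g := G1) z (G1_diff h2)
      (by fun_prop)
  have d3 : DifferentiableAt ℂ (fun z => G1 (z + θ * Complex.I)) z :=
    DifferentiableAt.comp (f := fun z : ℂ => z + θ * Complex.I) (g := G1) z (G1_diff h3)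
      (by fun_prop)
  have d4 : DifferentiableAt ℂ (fun z : ℂ => aeval (-Complex.exp z) Q1) z :=
    DifferentiableAt.comp (f := fun z : ℂ => -Complex.exp z) (g := fun y : ℂ => aeval y Q1) z
      (Polynomial.differentiable_aeval Q1).differentiableAt (by fun_prop)
  have d5 : DifferentiableAt ℂ (fun z : ℂ => psi n θ (-(om * Complex.exp z))) z := by
    unfold psi; fun_prop
  have d6 : DifferentiableAt ℂ (fun z : ℂ => psi n θ (-(om ^ 2 * Complex.exp z))) z := by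
    unfold psi; fun_prop
  unfold rho
  exact DifferentiableAt.div ((((d4.const_mul _).mul d1).mul ((d2.mul d3).pow n)).neg)
    (d5.mul d6) (mul_ne_zero (psi_ne1 h0 hz) (psi_ne2 h0 hz))

theorem aeval_conj (Q : ℝ[X]) (x : ℂ) : aeval (starRingEnd ℂ x) Q = starRingEnd ℂ (aeval x Q) := by
  have := Polynomial.aeval_algHom_apply (Complex.conjAe : ℂ →ₐ[ℝ] ℂ) x Q
  simpa using this

theorem rho_conj (n : ℕ) (θ : ℝ) (Q1 : ℝ[X]) (z : ℂ) :
    rho n θ Q1 (starRingEnd ℂ z) = starRingEnd ℂ (rho n θ Q1 z) := by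
  unfold rho
  have e1 : aeval (-Complex.exp (starRingEnd ℂ z)) Q1 =
      starRingEnd ℂ (aeval (-Complex.exp z) Q1) := by
    rw [← aeval_conj, map_neg, Complex.exp_conj]
  have e2 : G1 (starRingEnd ℂ z - θ * Complex.I) = starRingEnd ℂ (G1 (z + θ * Complex.I)) := by
    rw [← G1_conj]; congr 1
    rw [map_add, map_mul, Complex.conj_ofReal, Complex.conj_I]; ring
  have e3 : G1 (starRingEnd ℂ z + θ * Complex.I) = starRingEnd ℂ (G1 (z - θ * Complex.I)) := by
    rw [← G1_conj]; congr 1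
    rw [map_sub, map_mul, Complex.conj_ofReal, Complex.conj_I]; ring
  have e4 : psi n θ (-(om * Complex.exp (starRingEnd ℂ z))) =
      starRingEnd ℂ (psi n θ (-(om ^ 2 * Complex.exp z))) := by
    rw [← psi_conj]; congr 1
    rw [map_neg, map_mul, map_pow, om_conj, Complex.exp_conj]
    have : (om ^ 2) ^ 2 = om := by
      rw [om_exp, ← pow_mul, ← Complex.exp_nat_mul]
      rw [Complex.exp_eq_exp_iff_exists_int]
      exact ⟨1, by push_cast; ring⟩
    rw [this]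
  have e5 : psi n θ (-(om ^ 2 * Complex.exp (starRingEnd ℂ z))) =
      starRingEnd ℂ (psi n θ (-(om * Complex.exp z))) := by
    rw [← psi_conj]; congr 1
    rw [map_neg, map_mul, om_conj, Complex.exp_conj]
  rw [e1, e2, e3, e4, e5, G1_conj]
  simp only [map_div₀, map_neg, map_mul, map_pow, Complex.conj_ofReal]
  ring

theorem RR_real (θ u : ℝ) : RR θ u = ((Rr θ u : ℝ) : ℂ) := by
  unfold RR Rr
  push_cast
  ring

theorem cos_facts {θ : ℝ} (h0 : 0 < θ) (h1 : θ < Real.pi / 3) :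
    0 < Real.cos (3 * θ / 2) ∧ Real.cos (3 * θ / 2) < 1 := by
  constructor
  · apply Real.cos_pos_of_mem_Ioo
    constructor <;> linarith [Real.pi_pos]
  · rw [← Real.cos_zero]
    apply Real.cos_lt_cos_of_nonneg_of_le_pi le_rfl <;> linarith [Real.pi_pos]

theorem Rr_pos {θ : ℝ} (h0 : 0 < θ) (h1 : θ < Real.pi / 3) (u : ℝ) : 0 < Rr θ u := by
  obtain ⟨a, b⟩ := cos_facts h0 h1
  have := Real.one_le_cosh (3 * u / 2)
  unfold Rr
  apply div_pos <;> linarith

theorem tanh_pos {u : ℝ} (hu : 0 < u) : 0 < Real.tanh u := by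
  rw [Real.tanh_eq_sinh_div_cosh]
  exact div_pos (Real.sinh_pos_iff.2 hu) (Real.cosh_pos u)

theorem lt_aux {θ : ℝ} (h1 : θ < Real.pi / 3) {z : ℂ} (hz : |z.im| ≤ Real.pi / 3) :
    |z.im| < 2 * Real.pi / 3 - θ := by linarith

theorem rho_pos {n : ℕ} {θ : ℝ} {Q Q1 : ℝ[X]} (hQ : Q = (X + 1) * Q1)
    (hQ1 : ∀ z : ℂ, aeval z Q1 = 0 → ∃ a : ℝ, 0 < a ∧ z = a) (h0 : 0 < θ) (h1 : θ < Real.pi / 3)
    (hodd : ∀ z : ℂ, |z.im| ≤ Real.pi / 3 → rC n θ Q (-z) = -rC n θ Q z)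
    (hpos : ∀ u : ℝ, 0 < u → 0 < (rC n θ Q u).re) (u : ℝ) : 0 < (rho n θ Q1 u).re := by
  have hpi := Real.pi_pos
  have hre : ∀ u : ℝ, |((u : ℂ)).im| < 2 * Real.pi / 3 - θ := by
    intro u; simp; linarith
  have hmain : ∀ u : ℝ, (rC n θ Q u).re = Real.tanh (3 * u / 4) * Rr θ u ^ n *
      (rho n θ Q1 u).re := by
    intro u
    have h := rho_main (n := n) hQ h0 (hre u)
    have e1 : Complex.tanh (3 * (u : ℂ) / 4) = ((Real.tanh (3 * u / 4) : ℝ) : ℂ) := by
      push_cast; ring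
    rw [e1, RR_real, ← Complex.ofReal_pow, ← Complex.ofReal_mul] at h
    rw [h, Complex.re_ofReal_mul]
  have hp : ∀ u : ℝ, 0 < u → 0 < (rho n θ Q1 u).re := by
    intro u hu
    have h := hpos u hu
    rw [hmain u] at h
    have h2 : 0 < Real.tanh (3 * u / 4) * Rr θ u ^ n :=
      mul_pos (tanh_pos (by positivity)) (pow_pos (Rr_pos h0 h1 u) n)
    exact (mul_pos_iff_of_pos_left h2).1 h
  rcases lt_trichotomy u 0 with hu | hu | hu
  · have h := hpos (-u) (by linarith)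
    have h3 : (rC n θ Q ((-u : ℝ) : ℂ)).re = -(rC n θ Q (u : ℂ)).re := by
      have := hodd (u : ℂ) (by simp; positivity)
      rw [Complex.ofReal_neg, this, Complex.neg_re]
    rw [h3, hmain u] at h
    have h2 : 0 < -(Real.tanh (3 * u / 4)) * Rr θ u ^ n := by
      rw [← Real.tanh_neg]
      exact mul_pos (tanh_pos (by linarith)) (pow_pos (Rr_pos h0 h1 u) n)
    have h4 : 0 < (-(Real.tanh (3 * u / 4)) * Rr θ u ^ n) * (rho n θ Q1 u).re := by linarith
    exact (mul_pos_iff_of_pos_left h2).1 h4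
  · subst hu
    have hc : ContinuousAt (fun u : ℝ => (rho n θ Q1 (u : ℂ)).re) 0 := by
      have h2 : ContinuousAt (rho n θ Q1) ((0 : ℝ) : ℂ) :=
        (rho_diff h0 (hre 0)).continuousAt
      exact Complex.continuous_re.continuousAt.comp
        (h2.comp (f := fun u : ℝ => (u : ℂ)) Complex.continuous_ofReal.continuousAt)
    have h5 : 0 ≤ (rho n θ Q1 ((0 : ℝ) : ℂ)).re := by
      apply ge_of_tendsto (hc.tendsto.mono_left nhdsWithin_le_nhds :
        Tendsto (fun u : ℝ => (rho n θ Q1 (u : ℂ)).re) (𝓝[>] (0 : ℝ))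
          (𝓝 (rho n θ Q1 ((0 : ℝ) : ℂ)).re))
      filter_upwards [self_mem_nhdsWithin] with v hv
      exact (hp v hv).le
    have h6 : (rho n θ Q1 ((0 : ℝ) : ℂ)).im = 0 := by
      have := rho_conj n θ Q1 ((0 : ℝ) : ℂ)
      rw [Complex.conj_ofReal] at this
      exact Complex.conj_eq_iff_im.1 this.symm
    have h7 := rho_ne (n := n) hQ1 h0 (hre 0)
    rcases h5.lt_or_eq with h8 | h8
    · exact h8
    · exact absurd (Complex.ext h8.symm h6) h7
  · exact hp u hu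

/-- `tanh(3z/4) RR^n` in terms of `q = e^{-3z/2}` -/
noncomputable def FF (n : ℕ) (θ : ℝ) (q : ℂ) : ℂ :=
  ((1 - q) / (1 + q)) * ((1 + q ^ 2 - 2 * Real.cos (3 * θ / 2) * q) /
    (1 + q ^ 2 + 2 * Real.cos (3 * θ / 2) * q)) ^ n

theorem FF_diff (n : ℕ) (θ : ℝ) : DifferentiableAt ℂ (FF n θ) 0 := by
  unfold FF
  apply DifferentiableAt.mul
  · exact DifferentiableAt.div (by fun_prop) (by fun_prop) (by simp)
  · apply DifferentiableAt.pow
    exact DifferentiableAt.div (by fun_prop) (by fun_prop) (by simp)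

theorem FF_eq (n : ℕ) (θ : ℝ) {z : ℂ} (hz : 0 < z.re) :
    Complex.tanh (3 * z / 4) * RR θ z ^ n = FF n θ (Complex.exp (-(3 * z / 2))) := by
  have hE : Complex.exp (-(3 * z / 2)) = (Complex.exp (3 * z / 2))⁻¹ := Complex.exp_neg _
  have h0 := Complex.exp_ne_zero (3 * z / 2)
  have e1 : Complex.exp (2 * (3 * z / 4)) = Complex.exp (3 * z / 2) := by congr 1; ring
  have h1 : Complex.exp (3 * z / 2) + 1 ≠ 0 := by
    intro h
    have h2 : Complex.exp (3 * z / 2) = -1 := by linear_combination h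
    have h3 := congrArg (fun x => ‖x‖) h2
    simp only [Complex.norm_exp, norm_neg, norm_one] at h3
    rw [Real.exp_eq_one_iff] at h3
    have h4 : (3 * z / 2).re = 3 * z.re / 2 := by
      rw [show 3 * z / 2 = ((3 / 2 : ℝ) : ℂ) * z by push_cast; ring, Complex.re_ofReal_mul]; ring
    linarith
  unfold FF RR
  rw [tanh_formula _ (by rw [e1]; exact h1), e1, hE, Complex.cosh, hE]
  set E := Complex.exp (3 * z / 2) with hEdef
  congr 1
  · have h5 : 1 + E⁻¹ ≠ 0 := by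
      intro h6; apply h1; field_simp at h6; simpa using h6
    rw [div_eq_div_iff h1 h5]
    field_simp
  · congr 1
    have e3 : (E + E⁻¹) / 2 - (Real.cos (3 * θ / 2) : ℂ) =
        (1 + E⁻¹ ^ 2 - 2 * Real.cos (3 * θ / 2) * E⁻¹) / (2 * E⁻¹) := by
      field_simp
    have e4 : (E + E⁻¹) / 2 + (Real.cos (3 * θ / 2) : ℂ) =
        (1 + E⁻¹ ^ 2 + 2 * Real.cos (3 * θ / 2) * E⁻¹) / (2 * E⁻¹) := by
      field_simp
    rw [e3, e4, div_div_div_cancel_right₀ (mul_ne_zero two_ne_zero (inv_ne_zero h0))]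

theorem FF_lim (n : ℕ) (θ : ℝ) : ∃ C R0 : ℝ, 0 < C ∧ 0 < R0 ∧ ∀ z : ℂ, R0 ≤ z.re →
    ‖Complex.tanh (3 * z / 4) * RR θ z ^ n - 1‖ ≤ C * Real.exp (-z.re) ∧
    1 / 2 ≤ ‖Complex.tanh (3 * z / 4) * RR θ z ^ n‖ := by
  obtain ⟨C, hC0, hC⟩ := (FF_diff n θ).isBigO_sub.exists_pos
  have hC := hC.bound
  have hF0 : FF n θ 0 = 1 := by simp [FF]
  rw [hF0] at hC
  obtain ⟨δ, hδ, hC⟩ := Metric.eventually_nhds_iff_ball.1 hC
  have hm : 0 < min δ (1 / (2 * C)) := lt_min hδ (by positivity)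
  obtain ⟨R0, hR1, hR2⟩ := ((Real.tendsto_exp_neg_atTop_nhds_zero.eventually
    (gt_mem_nhds hm)).and (eventually_gt_atTop 0)).exists
  refine ⟨C, R0, hC0, hR2, ?_⟩
  intro z hz
  have hz0 : 0 < z.re := by linarith
  have hq : ‖Complex.exp (-(3 * z / 2))‖ = Real.exp (-(3 * z.re / 2)) := by
    rw [Complex.norm_exp]
    congr 1
    rw [show -(3 * z / 2) = ((-3 / 2 : ℝ) : ℂ) * z by push_cast; ring, Complex.re_ofReal_mul]; ring
  have hq2 : Real.exp (-(3 * z.re / 2)) ≤ Real.exp (-z.re) := by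
    apply Real.exp_le_exp.2; linarith
  have hq3 : Real.exp (-z.re) ≤ Real.exp (-R0) := by
    apply Real.exp_le_exp.2; linarith
  have hR3 : Real.exp (-R0) < δ := lt_of_lt_of_le hR1 (min_le_left _ _)
  have hR4 : Real.exp (-R0) < 1 / (2 * C) := lt_of_lt_of_le hR1 (min_le_right _ _)
  have h1 := hC (Complex.exp (-(3 * z / 2))) (by
    rw [mem_ball_zero_iff, hq]; linarith)
  rw [← FF_eq n θ hz0, sub_zero, hq] at h1
  have h2 : ‖Complex.tanh (3 * z / 4) * RR θ z ^ n - 1‖ ≤ C * Real.exp (-z.re) :=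
    h1.trans (by gcongr)
  refine ⟨h2, ?_⟩
  have h3 : C * Real.exp (-z.re) ≤ 1 / 2 := by
    calc C * Real.exp (-z.re) ≤ C * (1 / (2 * C)) := by
          gcongr; linarith
      _ = 1 / 2 := by field_simp
  have h4 := norm_sub_norm_le (1 : ℂ) (1 - Complex.tanh (3 * z / 4) * RR θ z ^ n)
  rw [norm_one, norm_sub_rev 1, show (1 : ℂ) - (1 - Complex.tanh (3 * z / 4) * RR θ z ^ n) =
    Complex.tanh (3 * z / 4) * RR θ z ^ n by ring] at h4
  linarith

theorem rho_lim_pos {n : ℕ} {θ : ℝ} {Q Q1 : ℝ[X]} (hQ : Q = (X + 1) * Q1) (h0 : 0 < θ)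
    (h1 : θ < Real.pi / 3) {K : ℝ}
    (hK : ∀ z : ℂ, |z.im| ≤ Real.pi / 3 → 0 ≤ z.re →
      ‖rC n θ Q z - Real.sqrt 3‖ ≤ K * Real.exp (-z.re))
    {C R0 : ℝ} (hC : 0 < C) (hR0 : 0 < R0)
    (hS : ∀ z : ℂ, R0 ≤ z.re →
      ‖Complex.tanh (3 * z / 4) * RR θ z ^ n - 1‖ ≤ C * Real.exp (-z.re) ∧
      1 / 2 ≤ ‖Complex.tanh (3 * z / 4) * RR θ z ^ n‖) {z : ℂ} (hz : |z.im| ≤ Real.pi / 3)
    (hzr : R0 ≤ z.re) :
    ‖rho n θ Q1 z - Real.sqrt 3‖ ≤ (2 * (K + Real.sqrt 3 * C)) * Real.exp (-z.re) := by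
  obtain ⟨s1, s2⟩ := hS z hzr
  have hmain := rho_main (n := n) hQ h0 (lt_aux h1 hz)
  have hk := hK z hz (by linarith)
  set S := Complex.tanh (3 * z / 4) * RR θ z ^ n with hSdef
  have hS0 : 0 < ‖S‖ := by linarith
  have hS0' : S ≠ 0 := norm_pos_iff.1 hS0
  have e1 : rho n θ Q1 z - Real.sqrt 3 =
      ((rC n θ Q z - Real.sqrt 3) - Real.sqrt 3 * (S - 1)) / S := by
    rw [hmain]
    field_simp
    ring
  rw [e1, norm_div, div_le_iff₀ hS0]
  have h2 : ‖(rC n θ Q z - Real.sqrt 3) - Real.sqrt 3 * (S - 1)‖ ≤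
      (K + Real.sqrt 3 * C) * Real.exp (-z.re) := by
    calc ‖(rC n θ Q z - Real.sqrt 3) - Real.sqrt 3 * (S - 1)‖
        ≤ ‖rC n θ Q z - Real.sqrt 3‖ + ‖(Real.sqrt 3 : ℂ) * (S - 1)‖ := norm_sub_le _ _
      _ = ‖rC n θ Q z - Real.sqrt 3‖ + Real.sqrt 3 * ‖S - 1‖ := by
          rw [norm_mul, Complex.norm_real, Real.norm_of_nonneg (Real.sqrt_nonneg 3)]
      _ ≤ K * Real.exp (-z.re) + Real.sqrt 3 * (C * Real.exp (-z.re)) := by gcongr
      _ = (K + Real.sqrt 3 * C) * Real.exp (-z.re) := by ring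
  have h3 : 0 ≤ (K + Real.sqrt 3 * C) * Real.exp (-z.re) := (norm_nonneg _).trans h2
  nlinarith

theorem RR_neg (θ : ℝ) (z : ℂ) : RR θ (-z) = RR θ z := by
  unfold RR
  rw [show 3 * -z / 2 = -(3 * z / 2) by ring, Complex.cosh_neg]

theorem rho_lim {n : ℕ} {θ : ℝ} {Q Q1 : ℝ[X]} (hQ : Q = (X + 1) * Q1) (h0 : 0 < θ)
    (h1 : θ < Real.pi / 3)
    (hodd : ∀ z : ℂ, |z.im| ≤ Real.pi / 3 → rC n θ Q (-z) = -rC n θ Q z) {K : ℝ}
    (hK : ∀ z : ℂ, |z.im| ≤ Real.pi / 3 → 0 ≤ z.re →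
      ‖rC n θ Q z - Real.sqrt 3‖ ≤ K * Real.exp (-z.re)) :
    ∃ K c : ℝ, 0 < c ∧ ∀ z : ℂ, |z.im| ≤ Real.pi / 3 →
      ‖rho n θ Q1 z - Real.sqrt 3‖ ≤ K * Real.exp (-(c * |z.re|)) := by
  obtain ⟨C, R0, hC, hR0, hS⟩ := FF_lim n θ
  have hpos : ∀ z : ℂ, |z.im| ≤ Real.pi / 3 → R0 ≤ z.re →
      ‖rho n θ Q1 z - Real.sqrt 3‖ ≤ (2 * (K + Real.sqrt 3 * C)) * Real.exp (-z.re) :=
    fun z hz hzr => rho_lim_pos hQ h0 h1 hK hC hR0 hS hz hzr
  have hneg : ∀ z : ℂ, |z.im| ≤ Real.pi / 3 → z.re ≤ -R0 → rho n θ Q1 z = rho n θ Q1 (-z) := by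
    intro z hz hzr
    have hz' : |(-z).im| ≤ Real.pi / 3 := by simpa using hz
    have e1 := rho_main (n := n) hQ h0 (lt_aux h1 hz)
    have e2 := rho_main (n := n) hQ h0 (lt_aux h1 hz')
    have e3 := hodd z hz
    have e4 := (hS (-z) (by simp; linarith)).2
    have e5 : Complex.tanh (3 * -z / 4) * RR θ (-z) ^ n ≠ 0 := by
      apply norm_pos_iff.1; linarith
    have e6 : Complex.tanh (3 * -z / 4) * RR θ (-z) ^ n =
        -(Complex.tanh (3 * z / 4) * RR θ z ^ n) := by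
      rw [RR_neg, show 3 * -z / 4 = -(3 * z / 4) by ring, Complex.tanh_neg]
      ring
    apply mul_left_cancel₀ e5
    rw [← e2, e3, e1, e6]
    ring
  -- the compact part
  have hcomp : IsCompact (Set.Icc (-R0) R0 ×ℂ Set.Icc (-(Real.pi / 3)) (Real.pi / 3)) :=
    isCompact_Icc.reProdIm isCompact_Icc
  have hcont : ContinuousOn (fun z => rho n θ Q1 z - Real.sqrt 3)
      (Set.Icc (-R0) R0 ×ℂ Set.Icc (-(Real.pi / 3)) (Real.pi / 3)) := by
    intro z hz
    have hz2 : |z.im| ≤ Real.pi / 3 := abs_le.2 hz.2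
    exact ((rho_diff h0 (lt_aux h1 hz2)).continuousAt.sub continuousAt_const).continuousWithinAt
  obtain ⟨M, hM⟩ := hcomp.exists_bound_of_continuousOn hcont
  refine ⟨|2 * (K + Real.sqrt 3 * C)| + |M| * Real.exp R0, 1, one_pos, ?_⟩
  intro z hz
  rw [one_mul]
  have hsum : ∀ a : ℝ, 0 ≤ Real.exp a := fun a => (Real.exp_pos a).le
  have hA : (2 * (K + Real.sqrt 3 * C)) * Real.exp (-|z.re|) ≤
      (|2 * (K + Real.sqrt 3 * C)| + |M| * Real.exp R0) * Real.exp (-|z.re|) := by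
    apply mul_le_mul_of_nonneg_right _ (hsum _)
    have := le_abs_self (2 * (K + Real.sqrt 3 * C))
    have h5 : 0 ≤ |M| * Real.exp R0 := by positivity
    linarith
  rcases le_or_gt R0 z.re with h | h
  · have h3 := hpos z hz h
    rw [← abs_of_nonneg (by linarith : 0 ≤ z.re)] at h3
    exact h3.trans hA
  · rcases le_or_gt z.re (-R0) with h' | h'
    · rw [hneg z hz h']
      have h3 := hpos (-z) (by simpa using hz) (by simp; linarith)
      rw [Complex.neg_re, ← abs_of_nonpos (by linarith : z.re ≤ 0)] at h3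
      exact h3.trans hA
    · have h3 := hM z ⟨⟨h'.le, h.le⟩, abs_le.1 hz⟩
      have h4 : |z.re| ≤ R0 := abs_le.2 ⟨h'.le, h.le⟩
      calc ‖rho n θ Q1 z - Real.sqrt 3‖ ≤ M := h3
        _ ≤ |M| := le_abs_self M
        _ ≤ |M| * Real.exp (R0 + -|z.re|) := by
            apply le_mul_of_one_le_right (abs_nonneg M)
            exact Real.one_le_exp (by linarith)
        _ = |M| * Real.exp R0 * Real.exp (-|z.re|) := by rw [Real.exp_add]; ring
        _ ≤ _ := by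
            apply mul_le_mul_of_nonneg_right _ (hsum _)
            have := abs_nonneg (2 * (K + Real.sqrt 3 * C))
            linarith

theorem norm_tanh_quarter (a : ℝ) : ‖Complex.tanh (a + (Real.pi / 4 : ℝ) * Complex.I)‖ = 1 := by
  have h1 : Complex.cosh (a + (Real.pi / 4 : ℝ) * Complex.I) =
      Complex.I * starRingEnd ℂ (Complex.sinh (a + (Real.pi / 4 : ℝ) * Complex.I)) := by
    rw [Complex.cosh_add, Complex.sinh_add, Complex.cosh_mul_I, Complex.sinh_mul_I,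
      ← Complex.ofReal_cos, ← Complex.ofReal_sin, Real.cos_pi_div_four, Real.sin_pi_div_four,
      ← Complex.ofReal_cosh, ← Complex.ofReal_sinh]
    simp only [map_add, map_mul, Complex.conj_ofReal, Complex.conj_I]
    linear_combination ((Real.cosh a : ℂ) * ((Real.sqrt 2 / 2 : ℝ) : ℂ)) * Complex.I_sq
  have h2 : Complex.cosh (a + (Real.pi / 4 : ℝ) * Complex.I) ≠ 0 := by
    intro h
    have := congrArg Complex.re h
    rw [Complex.cosh_add, Complex.cosh_mul_I, Complex.sinh_mul_I,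
      ← Complex.ofReal_cos, ← Complex.ofReal_sin, Real.cos_pi_div_four, Real.sin_pi_div_four,
      ← Complex.ofReal_cosh, ← Complex.ofReal_sinh] at this
    simp only [Complex.add_re, Complex.mul_re, Complex.ofReal_re, Complex.I_re, mul_zero,
      Complex.ofReal_im, Complex.I_im, mul_one, Complex.zero_re, Complex.mul_im, sub_zero,
      zero_mul, add_zero, sub_self] at this
    have h3 : 0 < Real.cosh a * (Real.sqrt 2 / 2) := by
      have := Real.cosh_pos a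
      positivity
    linarith
  have h3 : ‖Complex.sinh (a + (Real.pi / 4 : ℝ) * Complex.I)‖ =
      ‖Complex.cosh (a + (Real.pi / 4 : ℝ) * Complex.I)‖ := by
    rw [h1, norm_mul, Complex.norm_I, one_mul, RCLike.norm_conj]
  rw [Complex.tanh_eq_sinh_div_cosh, norm_div, h3, div_self (norm_ne_zero_iff.2 h2)]

theorem norm_RR_third {θ : ℝ} (hc : 0 < Real.cos (3 * θ / 2)) (v : ℝ) :
    ‖RR θ (v + Real.pi / 3 * Complex.I)‖ = 1 := by
  unfold RR
  have h1 : Complex.cosh (3 * (v + Real.pi / 3 * Complex.I) / 2) =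
      (Real.sinh (3 * v / 2) : ℂ) * Complex.I := by
    rw [show 3 * ((v : ℂ) + Real.pi / 3 * Complex.I) / 2 =
      ((3 * v / 2 : ℝ) : ℂ) + ((Real.pi / 2 : ℝ) : ℂ) * Complex.I by push_cast; ring,
      Complex.cosh_add, Complex.cosh_mul_I, Complex.sinh_mul_I, ← Complex.ofReal_cos,
      ← Complex.ofReal_sin, Real.cos_pi_div_two, Real.sin_pi_div_two, ← Complex.ofReal_sinh]
    simp
  rw [h1]
  have h2 : (Real.sinh (3 * v / 2) : ℂ) * Complex.I - (Real.cos (3 * θ / 2) : ℂ) =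
      -starRingEnd ℂ ((Real.sinh (3 * v / 2) : ℂ) * Complex.I + (Real.cos (3 * θ / 2) : ℂ)) := by
    simp only [map_add, map_mul, Complex.conj_ofReal, Complex.conj_I]
    ring
  have h3 : (Real.sinh (3 * v / 2) : ℂ) * Complex.I + (Real.cos (3 * θ / 2) : ℂ) ≠ 0 := by
    intro h
    have := congrArg Complex.re h
    simp only [Complex.add_re, Complex.mul_re, Complex.ofReal_re, Complex.I_re, mul_zero,
      Complex.ofReal_im, Complex.I_im, mul_one, sub_self, zero_add, Complex.zero_re] at this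
    linarith
  rw [norm_div, h2, norm_neg, RCLike.norm_conj, div_self (norm_ne_zero_iff.2 h3)]

end RFacAux

open RFacAux in
theorem cl_rfac (hr : S_rs) (hl : S_lim) : S_rfac := by
  intro n θ t Q z0 hsq
  obtain ⟨r1, r2, r3, r4, r5, r6, r7, r8⟩ := hr n θ t Q z0 hsq
  obtain ⟨⟨K, l1⟩, l2, l3, l4, l5, l6, l7⟩ := hl n θ t Q z0 hsq
  obtain ⟨Q1, hQ, hQ1⟩ := hsq.Qfac
  have h0 := hsq.th0
  have h1 := hsq.th1
  have hpi := Real.pi_pos
  have hQ1' : ∀ z : ℂ, aeval z Q1 = 0 → ∃ a : ℝ, 0 < a ∧ z = a := by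
    intro z hz
    obtain ⟨a, ha, -, hza⟩ := hQ1 z hz
    exact ⟨a, ha, hza⟩
  refine ⟨rho n θ Q1, ⟨by positivity, ⟨2 * Real.pi / 3 - θ, by linarith, ?_⟩, ?_, ?_, ?_⟩, ?_, ?_⟩
  · intro z hz
    exact ⟨rho_diff h0 hz, rho_ne hQ1' h0 hz⟩
  · intro z _
    exact rho_conj n θ Q1 z
  · exact rho_pos hQ hQ1' h0 h1 (fun z hz => (r3 z hz).2) l5
  · exact rho_lim hQ h0 h1 (fun z hz => (r3 z hz).2) (fun z hz hz2 => ((l1 z hz).2.2 hz2).1)
  · intro z hz
    exact rho_main hQ h0 (lt_aux h1 hz)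
  · intro v
    have him : (v + Real.pi / 3 * Complex.I : ℂ).im = Real.pi / 3 := by
      rw [show (v + Real.pi / 3 * Complex.I : ℂ) = (v : ℂ) + ((Real.pi / 3 : ℝ) : ℂ) * Complex.I
        by push_cast; ring]
      simp
    have habs : |(v + Real.pi / 3 * Complex.I : ℂ).im| ≤ Real.pi / 3 := by
      rw [him, abs_of_pos (by positivity)]
    rw [← r7 v, rho_main (n := n) hQ h0 (lt_aux h1 habs), norm_mul, norm_mul, norm_pow,
      norm_RR_third (cos_facts h0 h1).1]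
    have e1 : (3 * (v + Real.pi / 3 * Complex.I) / 4 : ℂ) =
        ((3 * v / 4 : ℝ) : ℂ) + (Real.pi / 4 : ℝ) * Complex.I := by push_cast; ring
    rw [e1, norm_tanh_quarter]
    simp

end W96CL
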